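import Mathlib

/-! Covering images of a set with small doubling by translates of its iterated difference sets. -/

set_option autoImplicit false

namespace Pool.Agent.U234.FD

open Finset
open scoped Pointwise

variable {Γ : Type*} [AddCommGroup Γ] [DecidableEq Γ]

/-- The `m`-fold sum of the difference set `A - A`. -/
def df (A : Finset Γ) : ℕ → Finset Γ
  | 0 => 0
  | m + 1 => df A m + (A - A)

theorem df_add (A : Finset Γ) (m n : ℕ) : df A (m + n) = df A m + df A n := by
  induction n with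
  | zero => simp [df]
  | succ n ih => rw [← add_assoc, df, ih, df, add_assoc]

theorem df_one (A : Finset Γ) : df A 1 = A - A := by simp [df]

theorem neg_df (A : Finset Γ) (m : ℕ) : -df A m = df A m := by
  induction m with
  | zero => simp [df]
  | succ m ih => rw [df, neg_add, ih, neg_sub]

theorem df_eq (A : Finset Γ) (m : ℕ) : df A m = m • A - m • A := by
  induction m with
  | zero => simp [df]
  | succ m ih => rw [df, ih, succ_nsmul, sub_add_sub_comm]

theorem card_add_df {A : Finset Γ} (hA : A.Nonempty) {K : ℝ}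
    (hK : ((A + A).card : ℝ) ≤ K * A.card) (m : ℕ) :
    ((A + df A m).card : ℝ) ≤ K ^ (2 * m + 1) * A.card := by
  have h1 : A + df A m = (m + 1) • A - m • A := by
    rw [df_eq, succ_nsmul, add_comm (m • A) A, add_sub_assoc]
  have h2 := pluennecke_ruzsa_inequality_nsmul_sub_nsmul_add hA A (m + 1) m
  rw [h1]
  have hc : (0 : ℝ) < A.card := by exact_mod_cast hA.card_pos
  have h3 : (((m + 1) • A - m • A).card : ℝ) ≤
      (((A + A).card : ℝ) / A.card) ^ (m + 1 + m) * A.card := by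
    have h4 := (NNRat.cast_le (K := ℝ)).2 h2
    push_cast at h4
    exact h4
  refine h3.trans (mul_le_mul_of_nonneg_right ?_ hc.le)
  rw [show m + 1 + m = 2 * m + 1 by ring]
  refine pow_le_pow_left₀ (by positivity) ?_ _
  rw [div_le_iff₀ hc]
  exact hK

/-- `X` is covered by at most `K ^ s` translates of the `m`-fold sum of `A - A`. -/
def CovBy (K : ℝ) (A : Finset Γ) (s m : ℕ) (X : Finset Γ) : Prop :=
  ∃ T : Finset Γ, (T.card : ℝ) ≤ K ^ s ∧ X ⊆ T + df A m

theorem CovBy.subset {K : ℝ} {A X Y : Finset Γ} {s m : ℕ} (h : CovBy K A s m Y) (hX : X ⊆ Y) :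
    CovBy K A s m X := by
  obtain ⟨T, h1, h2⟩ := h
  exact ⟨T, h1, hX.trans h2⟩

theorem df_mono {A : Finset Γ} (hA : A.Nonempty) {m n : ℕ} (h : m ≤ n) : df A m ⊆ df A n := by
  obtain ⟨k, rfl⟩ := Nat.exists_eq_add_of_le h
  rw [df_add]
  have h0 : (0 : Γ) ∈ df A k := by
    induction k with
    | zero => simp [df]
    | succ k ih =>
      rw [df, ← add_zero (0 : Γ)]
      obtain ⟨a, ha⟩ := hA
      exact add_mem_add (ih (Nat.le_add_right _ _)) (by rw [← sub_self a]; exact sub_mem_sub ha ha)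
  intro x hx
  rw [← add_zero x]
  exact add_mem_add hx h0

theorem CovBy.mono {K : ℝ} (hK : 1 ≤ K) {A X : Finset Γ} (hA : A.Nonempty) {s m s' m' : ℕ}
    (h : CovBy K A s m X) (hs : s ≤ s') (hm : m ≤ m') : CovBy K A s' m' X := by
  obtain ⟨T, h1, h2⟩ := h
  exact ⟨T, h1.trans (pow_le_pow_right₀ hK hs), h2.trans (add_subset_add_left (df_mono hA hm))⟩

theorem CovBy.neg {K : ℝ} {A X : Finset Γ} {s m : ℕ} (h : CovBy K A s m X) :
    CovBy K A s m (-X) := by
  obtain ⟨T, h1, h2⟩ := h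
  refine ⟨-T, by rwa [card_neg], ?_⟩
  rw [← neg_df, ← neg_add]
  exact neg_subset_neg h2

theorem CovBy.add {K : ℝ} (hK : 1 ≤ K) {A X Y : Finset Γ} {s m s' m' : ℕ} (h : CovBy K A s m X)
    (h' : CovBy K A s' m' Y) : CovBy K A (s + s') (m + m') (X + Y) := by
  obtain ⟨T, h1, h2⟩ := h
  obtain ⟨T', h1', h2'⟩ := h'
  refine ⟨T + T', ?_, ?_⟩
  · have h3 : ((T + T').card : ℝ) ≤ T.card * T'.card := by exact_mod_cast card_add_le
    rw [pow_add]
    exact h3.trans (mul_le_mul h1 h1' (Nat.cast_nonneg _) (by positivity))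
  · rw [df_add, add_add_add_comm]
    exact add_subset_add h2 h2'

theorem covBy_zero {K : ℝ} {A : Finset Γ} : CovBy K A 0 0 (0 : Finset Γ) :=
  ⟨0, by simp, by simp [df]⟩

/-- Ruzsa's covering lemma. -/
theorem covBy_of_card {K : ℝ} {A X : Finset Γ} (hA : A.Nonempty)
    (h : ((A + X).card : ℝ) ≤ K * A.card) : CovBy K A 1 1 X := by
  have h1 : ((X + A).card : ℝ) ≤ K * A.card := by rwa [add_comm]
  obtain ⟨T, _, hT, hc⟩ := ruzsa_covering_add hA h1
  exact ⟨T, by rwa [pow_one], by rwa [df_one]⟩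

theorem image_sub' (φ : Γ →+ Γ) (A B : Finset Γ) :
    (A - B).image φ = A.image φ - B.image φ := by
  ext x
  simp only [mem_image, mem_sub]
  constructor
  · rintro ⟨_, ⟨a, ha, b, hb, rfl⟩, rfl⟩
    exact ⟨φ a, ⟨a, ha, rfl⟩, φ b, ⟨b, hb, rfl⟩, (map_sub φ a b).symm⟩
  · rintro ⟨_, ⟨a, ha, rfl⟩, _, ⟨b, hb, rfl⟩, rfl⟩
    exact ⟨a - b, ⟨a, ha, b, hb, rfl⟩, map_sub φ a b⟩

/-- Images. -/
theorem image_df (φ : Γ →+ Γ) (A : Finset Γ) (m : ℕ) :
    (df A m).image φ = df (A.image φ) m := by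
  induction m with
  | zero =>
    change (0 : Finset Γ).image φ = 0
    rw [← Finset.singleton_zero, image_singleton, map_zero]
  | succ m ih => rw [df, df, image_add, ih, image_sub']

theorem covBy_df {K : ℝ} (hK : 1 ≤ K) {A X : Finset Γ} {s m : ℕ} (h : CovBy K A s m X) (n : ℕ) :
    CovBy K A (2 * s * n) (2 * m * n) (df X n) := by
  induction n with
  | zero => simpa [df] using covBy_zero
  | succ n ih =>
    have h1 := ih.add hK (h.add hK h.neg)
    rw [← sub_eq_add_neg] at h1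
    rw [df]
    have e1 : 2 * s * (n + 1) = 2 * s * n + (s + s) := by ring
    have e2 : 2 * m * (n + 1) = 2 * m * n + (m + m) := by ring
    rw [e1, e2]
    exact h1

theorem CovBy.image {K : ℝ} (hK : 1 ≤ K) {A X : Finset Γ} {s m s₁ m₁ : ℕ} (h : CovBy K A s m X)
    (φ : Γ →+ Γ) (hφ : CovBy K A s₁ m₁ (A.image φ)) :
    CovBy K A (s + 2 * s₁ * m) (2 * m₁ * m) (X.image φ) := by
  obtain ⟨T, h1, h2⟩ := h
  obtain ⟨T', h1', h2'⟩ := covBy_df hK hφ m
  refine ⟨T.image φ + T', ?_, ?_⟩
  · have h3 : ((T.image φ + T').card : ℝ) ≤ (T.image φ).card * T'.card := by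
      exact_mod_cast card_add_le
    have h4 : ((T.image φ).card : ℝ) ≤ T.card := by exact_mod_cast card_image_le
    rw [pow_add]
    exact h3.trans (mul_le_mul (h4.trans h1) h1' (Nat.cast_nonneg _) (by positivity))
  · calc X.image φ ⊆ (T + df A m).image φ := image_subset_image h2
      _ = T.image φ + df (A.image φ) m := by rw [image_add, image_df]
      _ ⊆ T.image φ + (T' + df A (2 * m₁ * m)) := add_subset_add_left h2'
      _ = T.image φ + T' + df A (2 * m₁ * m) := by rw [add_assoc]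

theorem CovBy.card_le {K : ℝ} (hK : 1 ≤ K) {A X : Finset Γ} (hA : A.Nonempty)
    (hAA : ((A + A).card : ℝ) ≤ K * A.card) {s m : ℕ} (h : CovBy K A s m X) :
    ((A + X).card : ℝ) ≤ K ^ (s + 2 * m + 1) * A.card := by
  obtain ⟨T, h1, h2⟩ := h
  have h3 : A + X ⊆ T + (A + df A m) := by
    refine (add_subset_add_left h2).trans ?_
    rw [← add_assoc, ← add_assoc, add_comm A T]
  have h4 : ((A + X).card : ℝ) ≤ T.card * (A + df A m).card := by
    exact_mod_cast (card_le_card h3).trans card_add_le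
  refine h4.trans ?_
  rw [show s + 2 * m + 1 = s + (2 * m + 1) by ring, pow_add, mul_assoc]
  exact mul_le_mul h1 (card_add_df hA hAA m) (Nat.cast_nonneg _) (by positivity)

end Pool.Agent.U234.FD
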