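import Pool.Agent.U234.FD.Ring

/-! Large multiplicative subgroups of finite fields generate the field boundedly. -/

set_option autoImplicit false
set_option linter.unusedSectionVars false

namespace Pool.Agent.U234.FD

open Finset

section

variable {F : Type*} [Field F] [Fintype F] [DecidableEq F] (ψ : AddChar F ℂ)

/-- The exponential sum over `H`. -/
noncomputable def S (H : Finset F) (t : F) : ℂ := ∑ x ∈ H, ψ (t * x)

theorem psi_prod {κ : Type*} (s : Finset κ) (f : κ → F) : ψ (∑ j ∈ s, f j) = ∏ j ∈ s, ψ (f j) := by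
  classical
  induction s using Finset.induction_on with
  | empty => simp
  | insert a s ha ih => rw [sum_insert ha, prod_insert ha, AddChar.map_add_eq_mul, ih]

theorem conj_psi (x : F) : (starRingEnd ℂ) (ψ x) = ψ (-x) := (AddChar.map_neg_eq_conj _ _).symm

variable {ψ}

theorem parsevalF (hψ : ψ.IsPrimitive) (H : Finset F) :
    ∑ t : F, ‖S ψ H t‖ ^ 2 = Fintype.card F * H.card := by
  have h1 : ((∑ t : F, ‖S ψ H t‖ ^ 2 : ℝ) : ℂ) = ((Fintype.card F * H.card : ℝ) : ℂ) := by
    push_cast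
    have h2 : ∀ t : F, ((‖S ψ H t‖ : ℂ)) ^ 2 = ∑ x ∈ H, ∑ y ∈ H, ψ (t * (x - y)) := by
      intro t
      have h3 : ((‖S ψ H t‖ : ℂ)) ^ 2 = S ψ H t * (starRingEnd ℂ) (S ψ H t) := by
        rw [Complex.mul_conj, Complex.normSq_eq_norm_sq]
        push_cast
        rfl
      rw [h3]
      unfold S
      rw [map_sum, sum_mul_sum]
      refine sum_congr rfl fun x _ => sum_congr rfl fun y _ => ?_
      rw [conj_psi, ← AddChar.map_add_eq_mul]
      congr 1
      ring
    rw [sum_congr rfl fun t _ => h2 t, sum_comm]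
    have h3 : ∀ x ∈ H, ∑ t : F, ∑ y ∈ H, ψ (t * (x - y)) = (Fintype.card F : ℂ) := by
      intro x hx
      rw [sum_comm, sum_eq_single x]
      · rw [AddChar.sum_mulShift _ hψ, if_pos (sub_self x)]
      · intro y _ hy
        rw [AddChar.sum_mulShift _ hψ, if_neg (sub_ne_zero.2 (Ne.symm hy)), Nat.cast_zero]
      · intro h
        exact absurd hx h
    rw [sum_congr rfl h3, sum_const, nsmul_eq_mul, mul_comm]
  exact_mod_cast h1

/-- `H` is the set of the elements of a multiplicative subgroup. -/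
def IsSub (H : Finset F) : Prop :=
  H.Nonempty ∧ ∀ h ∈ H, h ≠ 0 ∧ ∀ x, h * x ∈ H ↔ x ∈ H

theorem S_mul {H : Finset F} (hH : IsSub H) {h : F} (hh : h ∈ H) (t : F) :
    S ψ H (t * h) = S ψ H t := by
  unfold S
  have h1 : H.image (fun x => h * x) = H := by
    ext y
    rw [mem_image]
    constructor
    · rintro ⟨x, hx, rfl⟩
      exact ((hH.2 h hh).2 x).2 hx
    · intro hy
      refine ⟨h⁻¹ * y, ?_, by rw [← mul_assoc, mul_inv_cancel₀ (hH.2 h hh).1, one_mul]⟩
      rw [← (hH.2 h hh).2, ← mul_assoc, mul_inv_cancel₀ (hH.2 h hh).1, one_mul]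
      exact hy
  conv_rhs => rw [← h1]
  rw [sum_image (fun x _ y _ hxy => mul_left_cancel₀ (hH.2 h hh).1 hxy)]
  exact sum_congr rfl fun x _ => by rw [mul_assoc]

theorem S_le {H : Finset F} (hH : IsSub H) (hψ : ψ.IsPrimitive) {t : F} (ht : t ≠ 0) :
    ‖S ψ H t‖ ^ 2 ≤ Fintype.card F := by
  have h1 : ∑ h ∈ H, ‖S ψ H (t * h)‖ ^ 2 ≤ Fintype.card F * H.card := by
    rw [← parsevalF hψ H, ← sum_image (f := fun u => ‖S ψ H u‖ ^ 2) (g := fun h => t * h)
      (fun x _ y _ hxy => mul_left_cancel₀ ht hxy)]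
    exact sum_le_sum_of_subset_of_nonneg (subset_univ _) fun _ _ _ => by positivity
  rw [sum_congr rfl fun h hh => by rw [S_mul hH hh], sum_const, nsmul_eq_mul] at h1
  have hc : (0 : ℝ) < H.card := by exact_mod_cast hH.1.card_pos
  nlinarith

theorem S_zero (H : Finset F) : S ψ H 0 = H.card := by
  unfold S
  simp

/-- Every element of the field is a sum of `k` elements of a large multiplicative subgroup. -/
theorem exists_sum {H : Finset F} (hH : IsSub H) {k : ℕ}
    (hk : Fintype.card F ^ k < H.card ^ (2 * (k - 1))) (x : F) :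
    ∃ a : Fin k → F, (∀ i, a i ∈ H) ∧ ∑ i, a i = x := by
  by_contra hcon
  push Not at hcon
  have hψ := AddChar.FiniteField.primitiveChar_to_Complex_isPrimitive F
  set ψ := AddChar.FiniteField.primitiveChar_to_Complex F
  have hk2 : 2 ≤ k := by
    by_contra hk2
    have e : 2 * (k - 1) = 0 := by omega
    rw [e, pow_zero] at hk
    have := Nat.one_le_pow k (Fintype.card F) Fintype.card_pos
    omega
  have h1 : ∑ t : F, S ψ H t ^ k * ψ (-(t * x)) = 0 := by
    have h2 : ∀ t : F, S ψ H t ^ k * ψ (-(t * x)) =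
        ∑ a ∈ Fintype.piFinset (fun _ : Fin k => H), ψ (t * (∑ i, a i - x)) := by
      intro t
      have h3 : S ψ H t ^ k = ∏ _i : Fin k, ∑ y ∈ H, ψ (t * y) := by
        rw [prod_const, card_univ, Fintype.card_fin]
        rfl
      rw [h3, Finset.prod_univ_sum, sum_mul]
      refine sum_congr rfl fun a _ => ?_
      rw [← psi_prod, ← AddChar.map_add_eq_mul, ← mul_sum]
      congr 1
      ring
    rw [sum_congr rfl fun t _ => h2 t, sum_comm]
    refine sum_eq_zero fun a ha => ?_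
    rw [AddChar.sum_mulShift _ hψ, if_neg]
    · exact Nat.cast_zero
    · exact sub_ne_zero.2 (hcon a fun i => Fintype.mem_piFinset.1 ha i)
  have hc : (0 : ℝ) < H.card := by exact_mod_cast hH.1.card_pos
  have hq : (0 : ℝ) < Fintype.card F := by exact_mod_cast Fintype.card_pos
  have h2 : (H.card : ℂ) ^ k = -∑ t ∈ univ.erase (0 : F), S ψ H t ^ k * ψ (-(t * x)) := by
    rw [← add_sum_erase univ _ (mem_univ (0 : F))] at h1
    rw [S_zero, zero_mul, neg_zero, AddChar.map_zero_eq_one, mul_one] at h1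
    exact eq_neg_of_add_eq_zero_left h1
  have h3 : (H.card : ℝ) ^ k ≤ Real.sqrt (Fintype.card F) ^ (k - 2) * (Fintype.card F * H.card) := by
    have h4 : (H.card : ℝ) ^ k = ‖(H.card : ℂ) ^ k‖ := by rw [norm_pow, Complex.norm_natCast]
    rw [h4, h2, norm_neg, ← parsevalF hψ H, mul_sum]
    refine (norm_sum_le _ _).trans ?_
    refine le_trans (sum_le_sum fun t ht => ?_)
      (sum_le_sum_of_subset_of_nonneg (erase_subset (0 : F) univ) fun _ _ _ => by positivity)
    have h5 : ‖ψ (-(t * x))‖ = 1 := AddChar.norm_apply _ _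
    rw [norm_mul, h5, mul_one, norm_pow]
    have h6 : ‖S ψ H t‖ ≤ Real.sqrt (Fintype.card F) :=
      Real.le_sqrt_of_sq_le (S_le hH hψ (mem_erase.1 ht).1)
    calc ‖S ψ H t‖ ^ k = ‖S ψ H t‖ ^ (k - 2) * ‖S ψ H t‖ ^ 2 := by
          rw [← pow_add, Nat.sub_add_cancel hk2]
      _ ≤ _ := mul_le_mul_of_nonneg_right (pow_le_pow_left₀ (norm_nonneg _) h6 _) (by positivity)
  -- compare
  have h4 : ((H.card : ℝ) ^ k) ^ 2 ≤ (Fintype.card F : ℝ) ^ k * (H.card : ℝ) ^ 2 := by
    refine (pow_le_pow_left₀ (by positivity) h3 2).trans (le_of_eq ?_)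
    have h5 : (Real.sqrt (Fintype.card F) ^ (k - 2)) ^ 2 = (Fintype.card F : ℝ) ^ (k - 2) := by
      rw [← pow_mul, mul_comm, pow_mul, Real.sq_sqrt hq.le]
    have h6 : (Fintype.card F : ℝ) ^ k = (Fintype.card F : ℝ) ^ (k - 2) * (Fintype.card F : ℝ) ^ 2 := by
      rw [← pow_add, Nat.sub_add_cancel hk2]
    rw [mul_pow, h5, mul_pow, h6]
    ring
  have h5 : ((Fintype.card F : ℝ)) ^ k < (H.card : ℝ) ^ (2 * (k - 1)) := by exact_mod_cast hk
  have h6 : ((H.card : ℝ) ^ k) ^ 2 = (H.card : ℝ) ^ (2 * (k - 1)) * (H.card : ℝ) ^ 2 := by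
    rw [← pow_mul, ← pow_add]
    congr 1
    omega
  rw [h6] at h4
  have h7 := le_of_mul_le_mul_right h4 (by positivity : (0 : ℝ) < (H.card : ℝ) ^ 2)
  linarith

/-- Large multiplicative subgroups. -/
theorem width_subgroup (H : Subgroup Fˣ) {k : ℕ}
    (hk : Fintype.card F ^ k < Nat.card H ^ (2 * (k - 1))) :
    Width {x : F | ∃ h ∈ H, x = (h : F)} k 1 := by
  classical
  set T : Finset F := univ.filter fun x => ∃ h ∈ H, x = ((h : Fˣ) : F) with hT
  have hmem : ∀ x, x ∈ T ↔ ∃ h ∈ H, x = ((h : Fˣ) : F) := fun x => by simp [hT]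
  have hcard : T.card = Nat.card H := by
    have h1 : T = (univ.filter fun u : Fˣ => u ∈ H).image (Units.val : Fˣ → F) := by
      ext x
      rw [hmem, mem_image]
      constructor
      · rintro ⟨h, hh, rfl⟩
        exact ⟨h, by simpa using hh, rfl⟩
      · rintro ⟨u, hu, rfl⟩
        exact ⟨u, by simpa using hu, rfl⟩
    rw [h1, card_image_of_injective _ Units.val_injective, Nat.card_eq_fintype_card,
      Fintype.card_subtype]
  have hsub : IsSub T := by
    refine ⟨⟨1, (hmem 1).2 ⟨1, H.one_mem, by simp⟩⟩, fun h hh => ?_⟩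
    obtain ⟨u, hu, rfl⟩ := (hmem h).1 hh
    refine ⟨u.ne_zero, fun x => ?_⟩
    rw [hmem, hmem]
    constructor
    · rintro ⟨v, hv, hx⟩
      refine ⟨u⁻¹ * v, H.mul_mem (H.inv_mem hu) hv, ?_⟩
      rw [Units.val_mul, ← hx, ← mul_assoc, Units.inv_mul, one_mul]
    · rintro ⟨v, hv, rfl⟩
      exact ⟨u * v, H.mul_mem hu hv, by rw [Units.val_mul]⟩
  rw [← hcard] at hk
  intro r
  obtain ⟨a, ha, hsum⟩ := exists_sum hsub hk r
  refine ⟨List.ofFn a, by simp, by rw [List.sum_ofFn, hsum], fun x hx => ?_⟩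
  obtain ⟨i, rfl⟩ := List.mem_ofFn.1 hx
  refine ⟨[a i], by simp, ?_, Or.inl (by simp)⟩
  intro d hd
  rw [List.mem_singleton] at hd
  rw [hd]
  exact (hmem _).1 (ha i)

end

end Pool.Agent.U234.FD
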