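import Mathlib

/-! Sets of integers such that every integer is a sum of boundedly many of their elements and of
units, with signs. -/

set_option autoImplicit false

namespace Pool.Agent.U234.FD

open Polynomial

/-- Every integer is a sum of at most `h` terms, each of which is plus or minus an element of `D`, or
plus or minus one. -/
def SB (D : Set ℤ) (h : ℕ) : Prop :=
  ∀ n : ℤ, ∃ L : List ℤ, L.length ≤ h ∧ L.sum = n ∧ ∀ x ∈ L, x ∈ D ∨ -x ∈ D ∨ x = 1 ∨ x = -1

theorem SB.mono {D : Set ℤ} {h h' : ℕ} (H : SB D h) (hh : h ≤ h') : SB D h' := by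
  intro n
  obtain ⟨L, h1, h2⟩ := H n
  exact ⟨L, h1.trans hh, h2⟩

/-- From the multiples of one number to all numbers. -/
theorem sb_of_mul {D : Set ℤ} {a : ℤ} (ha : a ≠ 0) {s : ℕ}
    (H : ∀ t : ℤ, ∃ L : List ℤ, L.length ≤ s ∧ L.sum = a * t ∧ ∀ x ∈ L, x ∈ D ∨ -x ∈ D) :
    SB D (s + (a.natAbs - 1)) := by
  intro n
  obtain ⟨L, h1, h2, h3⟩ := H (n / a)
  have e0 : 0 ≤ n % a := Int.emod_nonneg n ha
  have e1 : n % a < |a| := Int.emod_lt_abs n ha
  have e2 : a * (n / a) + n % a = n := Int.mul_ediv_add_emod n a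
  refine ⟨L ++ List.replicate (n % a).toNat 1, ?_, ?_, ?_⟩
  · rw [List.length_append, List.length_replicate]
    have : ((n % a).toNat : ℤ) = n % a := Int.toNat_of_nonneg e0
    have h4 : (a.natAbs : ℤ) = |a| := Int.natCast_natAbs a
    omega
  · rw [List.sum_append, List.sum_replicate, h2, nsmul_eq_mul, mul_one, Int.toNat_of_nonneg e0, e2]
  · intro x hx
    rcases List.mem_append.1 hx with hx | hx
    · rcases h3 x hx with h | h
      · exact Or.inl h
      · exact Or.inr (Or.inl h)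
    · exact Or.inr (Or.inr (Or.inl (List.eq_of_mem_replicate hx)))

/-! ### Values of polynomials -/

/-- The values of `f` at the integers `n ≥ n₀`. -/
def Val (f : ℤ[X]) (n₀ : ℕ) : Set ℤ := {x | ∃ n : ℕ, n₀ ≤ n ∧ x = f.eval (n : ℤ)}

theorem split {f g : ℤ[X]} (hg : ∀ x : ℤ, g.eval x = f.eval (x + 1) - f.eval x) (n₀ : ℕ)
    (L' : List ℤ) (hL : ∀ x ∈ L', x ∈ Val g n₀ ∨ -x ∈ Val g n₀) :
    ∃ L : List ℤ, L.length ≤ 2 * L'.length ∧ L.sum = L'.sum ∧
      ∀ x ∈ L, x ∈ Val f n₀ ∨ -x ∈ Val f n₀ := by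
  induction L' with
  | nil => exact ⟨[], by simp, by simp, by simp⟩
  | cons y L' ih =>
    obtain ⟨L, h1, h2, h3⟩ := ih fun x hx => hL x (List.mem_cons_of_mem _ hx)
    have key : ∀ n : ℕ, n₀ ≤ n → f.eval ((n : ℤ) + 1) ∈ Val f n₀ ∧ f.eval (n : ℤ) ∈ Val f n₀ :=
      fun n hn => ⟨⟨n + 1, by omega, by push_cast; rfl⟩, ⟨n, hn, rfl⟩⟩
    rcases hL y (by simp) with ⟨n, hn, hy⟩ | ⟨n, hn, hy⟩
    · refine ⟨f.eval ((n : ℤ) + 1) :: -f.eval (n : ℤ) :: L, ?_, ?_, ?_⟩
      · simp only [List.length_cons]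
        omega
      · rw [List.sum_cons, List.sum_cons, List.sum_cons, h2, hy, hg]
        ring
      · intro x hx
        rcases List.mem_cons.1 hx with rfl | hx
        · exact Or.inl (key n hn).1
        · rcases List.mem_cons.1 hx with rfl | hx
          · right
            rw [neg_neg]
            exact (key n hn).2
          · exact h3 x hx
    · refine ⟨-f.eval ((n : ℤ) + 1) :: f.eval (n : ℤ) :: L, ?_, ?_, ?_⟩
      · simp only [List.length_cons]
        omega
      · rw [List.sum_cons, List.sum_cons, List.sum_cons, h2]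
        rw [hg] at hy
        linarith
      · intro x hx
        rcases List.mem_cons.1 hx with rfl | hx
        · right
          rw [neg_neg]
          exact (key n hn).1
        · rcases List.mem_cons.1 hx with rfl | hx
          · exact Or.inl (key n hn).2
          · exact h3 x hx

theorem poly_mul (k : ℕ) : ∀ f : ℤ[X], f.natDegree = k + 1 → ∃ a : ℤ, a ≠ 0 ∧
    ∀ (n₀ : ℕ) (t : ℤ), ∃ L : List ℤ, L.length ≤ 2 ^ (k + 1) ∧ L.sum = a * t ∧
      ∀ x ∈ L, x ∈ Val f n₀ ∨ -x ∈ Val f n₀ := by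
  induction k with
  | zero =>
    intro f hf
    refine ⟨f.coeff 1, ?_, fun n₀ t => ?_⟩
    · have h1 : f.leadingCoeff ≠ 0 := leadingCoeff_ne_zero.2 (fun h => by rw [h] at hf; simp at hf)
      rwa [leadingCoeff, hf] at h1
    · have hev : ∀ x : ℤ, f.eval x = f.coeff 0 + f.coeff 1 * x := by
        intro x
        rw [eval_eq_sum_range' (n := 2) (by omega), Finset.sum_range_succ, Finset.sum_range_one]
        ring
      have hy : (((n₀ + t.natAbs : ℕ) : ℤ) + t).toNat = ((n₀ + t.natAbs : ℕ) : ℤ) + t := by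
        rw [Int.toNat_of_nonneg]
        omega
      refine ⟨[f.eval (((n₀ + t.natAbs : ℕ) : ℤ) + t), -f.eval ((n₀ + t.natAbs : ℕ) : ℤ)], ?_, ?_, ?_⟩
      · simp
      · simp only [List.sum_cons, List.sum_nil, hev]
        ring
      · intro x hx
        simp only [List.mem_cons, List.not_mem_nil, or_false] at hx
        rcases hx with rfl | rfl
        · left
          refine ⟨(((n₀ + t.natAbs : ℕ) : ℤ) + t).toNat, ?_, by rw [hy]⟩
          omega
        · right
          rw [neg_neg]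
          exact ⟨n₀ + t.natAbs, by omega, rfl⟩
  | succ k ih =>
    intro f hf
    have hf0 : f ≠ 0 := fun h => by rw [h] at hf; simp at hf
    have hcoef : f.coeff (k + 2) ≠ 0 := by
      have h1 : f.leadingCoeff ≠ 0 := leadingCoeff_ne_zero.2 hf0
      rwa [leadingCoeff, hf] at h1
    set g : ℤ[X] := taylor 1 f - f with hg
    have hge : ∀ x : ℤ, g.eval x = f.eval (x + 1) - f.eval x := by
      intro x
      rw [hg, eval_sub, taylor_eval]
    have hgk : g.natDegree = k + 1 := by
      apply le_antisymm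
      · have h1 : g.degree < f.degree := by
          rw [hg]
          have h2 : (taylor 1 f).degree = f.degree := degree_taylor f 1
          have h3 : taylor 1 f ≠ 0 := by
            intro h
            rw [h, degree_zero] at h2
            exact hf0 (degree_eq_bot.1 h2.symm)
          rw [← h2]
          refine degree_sub_lt_left h2 h3 ?_
          rw [leadingCoeff, natDegree_taylor, hf, leadingCoeff, hf, taylor_coeff,
            eval_eq_sum_range' (n := 1) ((natDegree_hasseDeriv_le f (k + 1 + 1)).trans_lt (by omega)),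
            Finset.sum_range_one, hasseDeriv_coeff, zero_add, Nat.choose_self]
          simp
        have h4 : g.natDegree < f.natDegree := by
          rcases eq_or_ne g 0 with h0 | h0
          · rw [h0, natDegree_zero]
            omega
          · exact natDegree_lt_natDegree h0 h1
        omega
      · refine le_natDegree_of_ne_zero ?_
        have key : (taylor 1 f).coeff (k + 1) = f.coeff (k + 1) + (k + 2 : ℕ) * f.coeff (k + 2) := by
          rw [taylor_coeff, eval_eq_sum_range' (n := 2)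
            ((natDegree_hasseDeriv_le f (k + 1)).trans_lt (by omega)), Finset.sum_range_succ,
            Finset.sum_range_one, hasseDeriv_coeff, hasseDeriv_coeff, zero_add, Nat.choose_self,
            show 1 + (k + 1) = k + 1 + 1 by ring, Nat.choose_succ_self_right]
          push_cast
          ring
        rw [hg, coeff_sub, key, add_sub_cancel_left]
        exact mul_ne_zero (by exact_mod_cast (by omega : (k + 2 : ℕ) ≠ 0)) hcoef
    obtain ⟨a, ha, H⟩ := ih g hgk
    refine ⟨a, ha, fun n₀ t => ?_⟩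
    obtain ⟨L', h1, h2, h3⟩ := H n₀ t
    obtain ⟨L, h4, h5, h6⟩ := split hge n₀ L' h3
    refine ⟨L, ?_, h5.trans h2, h6⟩
    calc L.length ≤ 2 * L'.length := h4
      _ ≤ 2 * 2 ^ (k + 1) := by omega
      _ = 2 ^ (k + 1 + 1) := by ring

/-- The values of a nonconstant polynomial. -/
theorem poly_sb (f : ℤ[X]) (hf : 1 ≤ f.natDegree) : ∃ h : ℕ, ∀ n₀ : ℕ, SB (Val f n₀) h := by
  obtain ⟨k, hk⟩ : ∃ k, f.natDegree = k + 1 := ⟨f.natDegree - 1, by omega⟩
  obtain ⟨a, ha, H⟩ := poly_mul k f hk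
  exact ⟨_, fun n₀ => sb_of_mul ha (H n₀)⟩

/-- The squares. -/
theorem square_sb : SB {x : ℤ | ∃ n : ℕ, x = (n : ℤ) ^ 2} 3 := by
  intro n
  have hsq : ∀ j : ℤ, j ^ 2 ∈ {x : ℤ | ∃ n : ℕ, x = (n : ℤ) ^ 2} := by
    intro j
    refine ⟨j.natAbs, ?_⟩
    rw [Int.natAbs_sq]
  rcases Int.even_or_odd' n with ⟨j, hj | hj⟩
  · refine ⟨[(j : ℤ) ^ 2, -(j - 1) ^ 2, 1], by simp, ?_, ?_⟩
    · simp only [List.sum_cons, List.sum_nil, hj]
      ring
    · intro x hx
      simp only [List.mem_cons, List.not_mem_nil, or_false] at hx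
      rcases hx with rfl | rfl | rfl
      · exact Or.inl (hsq j)
      · right; left
        rw [neg_neg]
        exact hsq _
      · right; right; left; rfl
  · refine ⟨[(j + 1 : ℤ) ^ 2, -j ^ 2], by simp, ?_, ?_⟩
    · simp only [List.sum_cons, List.sum_nil, hj]
      ring
    · intro x hx
      simp only [List.mem_cons, List.not_mem_nil, or_false] at hx
      rcases hx with rfl | rfl
      · exact Or.inl (hsq _)
      · right; left
        rw [neg_neg]
        exact hsq _

/-! ### Dense sets -/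

/-- At most `m` translates of `D` are pairwise disjoint. -/
def FewDisjoint (D : Set ℤ) (m : ℕ) : Prop :=
  ∀ X : Finset ℤ, (∀ x ∈ X, ∀ y ∈ X, x ≠ y → ∀ d ∈ D, ∀ d' ∈ D, x + d ≠ y + d') → X.card ≤ m

/-- The sums of at most `j` differences of elements of `D`. -/
def SD (D : Set ℤ) (j : ℕ) : Set ℤ :=
  {x | ∃ L : List ℤ, L.length ≤ j ∧ L.sum = x ∧ ∀ y ∈ L, ∃ d ∈ D, ∃ d' ∈ D, y = d - d'}

theorem SD_mono {D : Set ℤ} {i j : ℕ} (h : i ≤ j) : SD D i ⊆ SD D j := by
  rintro x ⟨L, h1, h2⟩
  exact ⟨L, h1.trans h, h2⟩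

theorem SD_add {D : Set ℤ} {i j : ℕ} {x y : ℤ} (hx : x ∈ SD D i) (hy : y ∈ SD D j) :
    x + y ∈ SD D (i + j) := by
  obtain ⟨L, h1, h2, h3⟩ := hx
  obtain ⟨L', h1', h2', h3'⟩ := hy
  refine ⟨L ++ L', by rw [List.length_append]; omega, by rw [List.sum_append, h2, h2'], ?_⟩
  intro z hz
  rcases List.mem_append.1 hz with hz | hz
  · exact h3 z hz
  · exact h3' z hz

theorem SD_one {D : Set ℤ} {d d' : ℤ} (hd : d ∈ D) (hd' : d' ∈ D) : d - d' ∈ SD D 1 :=
  ⟨[d - d'], by simp, by simp, by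
    intro y hy
    rw [List.mem_singleton] at hy
    exact ⟨d, hd, d', hd', hy⟩⟩

theorem exists_stable {D : Set ℤ} {m : ℕ} (hD : FewDisjoint D m) :
    ∃ j ≤ m, SD D (2 * j + 1) ⊆ SD D (2 * j) := by
  by_contra hcon
  push Not at hcon
  have h1 : ∀ j, ∃ x, j ≤ m → x ∈ SD D (2 * j + 1) ∧ x ∉ SD D (2 * j) := by
    intro j
    by_cases hj : j ≤ m
    · obtain ⟨x, hx, hx'⟩ := Set.not_subset.1 (hcon j hj)
      exact ⟨x, fun _ => ⟨hx, hx'⟩⟩
    · exact ⟨0, fun h => absurd h hj⟩
  choose x hx using h1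
  have key : ∀ i j, i < j → j ≤ m → ∀ d ∈ D, ∀ d' ∈ D, x i + d ≠ x j + d' := by
    intro i j hij hj d hd d' hd' h
    have h2 : x j = x i + (d - d') := by linarith
    apply (hx j hj).2
    rw [h2]
    exact SD_mono (by omega) (SD_add (hx i (by omega)).1 (SD_one hd hd'))
  have hne : ∀ i j, i < j → j ≤ m → x i ≠ x j := by
    intro i j hij hj h
    apply (hx j hj).2
    rw [← h]
    exact SD_mono (by omega) (hx i (by omega)).1
  have hinj : Set.InjOn x (Finset.range (m + 1) : Set ℕ) := by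
    intro i hi j hj h
    rw [Finset.coe_range, Set.mem_Iio] at hi hj
    rcases lt_trichotomy i j with h1 | h1 | h1
    · exact absurd h (hne i j h1 (by omega))
    · exact h1
    · exact absurd h.symm (hne j i h1 (by omega))
  have h2 := hD ((Finset.range (m + 1)).image x) (by
    intro a ha b hb hab d hd d' hd'
    obtain ⟨i, hi, rfl⟩ := Finset.mem_image.1 ha
    obtain ⟨j, hj, rfl⟩ := Finset.mem_image.1 hb
    rw [Finset.mem_range] at hi hj
    rcases lt_trichotomy i j with h1 | h1 | h1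
    · exact key i j h1 (by omega) d hd d' hd'
    · exact absurd (congrArg x h1) hab
    · exact (key j i h1 (by omega) d' hd' d hd).symm)
  rw [Finset.card_image_of_injOn hinj, Finset.card_range] at h2
  omega

theorem SD_all {D : Set ℤ} {m : ℕ} (hD : FewDisjoint D m) (i : ℕ) : SD D i ⊆ SD D (2 * m) := by
  obtain ⟨j, hj, h⟩ := exists_stable hD
  have h1 : ∀ i, SD D (2 * j + i) ⊆ SD D (2 * j) := by
    intro i
    induction i with
    | zero => exact subset_rfl
    | succ i ih =>
      rintro x ⟨L, h2, h3, h4⟩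
      cases L with
      | nil => exact ⟨[], by simp, h3, by simp⟩
      | cons y L =>
        rw [List.sum_cons] at h3
        have h5 : L.sum ∈ SD D (2 * j) := by
          refine ih ⟨L, ?_, rfl, fun z hz => h4 z (List.mem_cons_of_mem _ hz)⟩
          rw [List.length_cons] at h2
          omega
        obtain ⟨d, hd, d', hd', hy⟩ := h4 y (by simp)
        rw [← h3, hy]
        have h6 := SD_add h5 (SD_one hd hd')
        rw [add_comm L.sum] at h6
        exact h h6
  exact ((SD_mono (by omega)).trans (h1 i)).trans (SD_mono (by omega))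

theorem mul_mem {D : Set ℤ} {m : ℕ} (hD : FewDisjoint D m) {d d' : ℤ} (hd : d ∈ D) (hd' : d' ∈ D)
    (t : ℤ) : (d - d') * t ∈ SD D (2 * m) := by
  have key : ∀ (n : ℕ) (a b : ℤ), a ∈ D → b ∈ D → (a - b) * n ∈ SD D n := by
    intro n
    induction n with
    | zero => intro a b _ _; exact ⟨[], by simp, by simp, by simp⟩
    | succ n ih =>
      intro a b ha hb
      have h1 := SD_add (ih a b ha hb) (SD_one ha hb)
      have h2 : (a - b) * ((n + 1 : ℕ) : ℤ) = (a - b) * n + (a - b) := by push_cast; ring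
      rw [h2]
      exact h1
  rcases Int.eq_nat_or_neg t with ⟨n, rfl | rfl⟩
  · exact SD_all hD n (key n d d' hd hd')
  · have h1 := SD_all hD n (key n d' d hd' hd)
    have h2 : (d - d') * -(n : ℤ) = (d' - d) * n := by ring
    rw [h2]
    exact h1

theorem exists_lists {D : Set ℤ} (L' : List ℤ) (hL : ∀ y ∈ L', ∃ d ∈ D, ∃ d' ∈ D, y = d - d') :
    ∃ L : List ℤ, L.length = 2 * L'.length ∧ L.sum = L'.sum ∧ ∀ x ∈ L, x ∈ D ∨ -x ∈ D := by
  induction L' with
  | nil => exact ⟨[], by simp, by simp, by simp⟩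
  | cons y L' ih =>
    obtain ⟨L, h1, h2, h3⟩ := ih fun x hx => hL x (List.mem_cons_of_mem _ hx)
    obtain ⟨d, hd, d', hd', hy⟩ := hL y (by simp)
    refine ⟨d :: -d' :: L, by simp only [List.length_cons]; omega, ?_, ?_⟩
    · rw [List.sum_cons, List.sum_cons, List.sum_cons, h2, hy]
      ring
    · intro x hx
      rcases List.mem_cons.1 hx with rfl | hx
      · exact Or.inl hd
      · rcases List.mem_cons.1 hx with rfl | hx
        · right
          rwa [neg_neg]
        · exact h3 x hx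

/-- Dense sets. -/
theorem dense_sb {D : Set ℤ} {m : ℕ} (hD : FewDisjoint D m) : SB D (5 * m) := by
  -- two of the translates by `0, …, m` meet
  obtain ⟨i, hi, j, hj, hij, d, hd, d', hd', h⟩ : ∃ i ∈ Finset.range (m + 1),
      ∃ j ∈ Finset.range (m + 1), i ≠ j ∧ ∃ d ∈ D, ∃ d' ∈ D, (i : ℤ) + d = j + d' := by
    by_contra hcon
    push Not at hcon
    have h1 := hD ((Finset.range (m + 1)).image fun i : ℕ => (i : ℤ)) (by
      intro a ha b hb hab d hd d' hd'
      obtain ⟨i, hi, rfl⟩ := Finset.mem_image.1 ha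
      obtain ⟨j, hj, rfl⟩ := Finset.mem_image.1 hb
      exact hcon i hi j hj (fun h => hab (by rw [h])) d hd d' hd')
    rw [Finset.card_image_of_injective _ Nat.cast_injective, Finset.card_range] at h1
    omega
  rw [Finset.mem_range] at hi hj
  have ha : d - d' ≠ 0 := by
    intro h0
    apply hij
    have : (i : ℤ) = j := by linarith
    exact_mod_cast this
  have h1 := sb_of_mul (D := D) (s := 4 * m) ha (fun t => by
    obtain ⟨L', h1, h2, h3⟩ := mul_mem hD hd hd' t
    obtain ⟨L, h4, h5, h6⟩ := exists_lists L' h3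
    exact ⟨L, by omega, h5.trans h2, h6⟩)
  refine h1.mono ?_
  omega

/-- Sets with upper Banach density at least `δ`. -/
def BanachDensity (δ : ℝ) (D : Set ℤ) : Prop :=
  ∀ N₀ : ℕ, ∃ N : ℕ, N₀ ≤ N ∧ ∃ M : ℤ, δ * N ≤ (D ∩ Set.Ico M (M + N)).ncard

theorem few_of_density {δ : ℝ} (hδ : 0 < δ) {D : Set ℤ} (hD : BanachDensity δ D) :
    FewDisjoint D ⌊1 / δ⌋₊ := by
  classical
  intro X hX
  obtain ⟨B, hB⟩ : ∃ B : ℕ, ∀ x ∈ X, |x| ≤ B := by
    refine ⟨∑ x ∈ X, x.natAbs, fun x hx => ?_⟩
    have h1 := Finset.single_le_sum (f := fun x : ℤ => x.natAbs) (fun _ _ => Nat.zero_le _) hx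
    rw [← Int.natCast_natAbs]
    exact_mod_cast h1
  apply Nat.le_floor
  by_contra hcon
  push Not at hcon
  have hη : 0 < X.card * δ - 1 := by
    rw [div_lt_iff₀ hδ] at hcon
    linarith
  obtain ⟨N, hN, M, hM⟩ := hD (⌈2 * B / (X.card * δ - 1)⌉₊ + 1)
  set I := D ∩ Set.Ico M (M + N) with hI
  have hIf : I.Finite := (Set.finite_Ico _ _).subset Set.inter_subset_right
  set J := hIf.toFinset with hJ
  have hJc : (J.card : ℝ) = I.ncard := by rw [Set.ncard_eq_toFinset_card _ hIf]
  have hdis : ∀ x ∈ X, ∀ y ∈ X, x ≠ y →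
      Disjoint (J.image fun d => x + d) (J.image fun d => y + d) := by
    intro x hx y hy hxy
    rw [Finset.disjoint_left]
    intro z hz hz'
    obtain ⟨d, hd, rfl⟩ := Finset.mem_image.1 hz
    obtain ⟨d', hd', h'⟩ := Finset.mem_image.1 hz'
    rw [hJ, Set.Finite.mem_toFinset] at hd hd'
    exact hX x hx y hy hxy d hd.1 d' hd'.1 h'.symm
  have h1 : (X.biUnion fun x => J.image fun d => x + d).card = X.card * J.card := by
    rw [Finset.card_biUnion hdis, Finset.sum_congr rfl (g := fun _ => J.card), Finset.sum_const,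
      smul_eq_mul]
    intro x _
    exact Finset.card_image_of_injective _ (add_right_injective x)
  have h2 : (X.biUnion fun x => J.image fun d => x + d) ⊆ Finset.Ico (M - B) (M + N + B) := by
    intro z hz
    obtain ⟨x, hx, hz⟩ := Finset.mem_biUnion.1 hz
    obtain ⟨d, hd, rfl⟩ := Finset.mem_image.1 hz
    rw [hJ, Set.Finite.mem_toFinset] at hd
    obtain ⟨h3, h4⟩ := Set.mem_Ico.1 hd.2
    obtain ⟨h5, h6⟩ := abs_le.1 (hB x hx)
    rw [Finset.mem_Ico]
    constructor <;> linarith
  have h3 := Finset.card_le_card h2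
  rw [h1, Int.card_Ico] at h3
  have h4 : (X.card * J.card : ℝ) ≤ N + 2 * B := by
    have h5 : ((M + N + B - (M - B)).toNat : ℤ) = N + 2 * B := by
      rw [Int.toNat_of_nonneg] <;> omega
    have h6 : ((X.card * J.card : ℕ) : ℤ) ≤ N + 2 * B := by
      rw [← h5]
      exact_mod_cast h3
    exact_mod_cast h6
  rw [hJc] at h4
  have h5 : (X.card : ℝ) * (δ * N) ≤ N + 2 * B :=
    (mul_le_mul_of_nonneg_left hM (Nat.cast_nonneg _)).trans h4
  have h6 : (2 : ℝ) * B / (X.card * δ - 1) < N := by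
    have h7 := Nat.le_ceil ((2 : ℝ) * B / (X.card * δ - 1))
    have h8 : ((⌈2 * (B : ℝ) / (X.card * δ - 1)⌉₊ : ℕ) : ℝ) + 1 ≤ N := by exact_mod_cast hN
    linarith
  rw [div_lt_iff₀ hη] at h6
  nlinarith

end Pool.Agent.U234.FD
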