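import Pool.Agent.U234.FD.Ring
import Pool.Agent.U234.FD.SB
import Pool.Agent.TH414.Dil.Final
import Pool.Agent.TH414.UD.Q1

/-! Sets with small sums with their dilates by the elements of a set of integers. -/

set_option autoImplicit false

namespace Pool.Agent.U234.FD

open Finset
open scoped Pointwise

theorem width_of_sb {D : Set ℤ} {h : ℕ} (H : SB D h) : Width D h 1 := by
  intro n
  obtain ⟨L, h1, h2, h3⟩ := H n
  refine ⟨L, h1, h2, fun x hx => ?_⟩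
  rcases h3 x hx with h | h | h | h
  · exact ⟨[x], by simp, by simpa using h, Or.inl (by simp)⟩
  · exact ⟨[-x], by simp, by simpa using h, Or.inr (by simp)⟩
  · exact ⟨[], by simp, by simp, Or.inl (by simpa using h)⟩
  · exact ⟨[], by simp, by simp, Or.inr (by simpa using h)⟩

theorem int_main {D : Set ℤ} {h : ℕ} (H : SB D h) (Γ : Type*) [AddCommGroup Γ]
    [d : DecidableEq Γ] (K : ℝ) (A : Finset Γ) (hA : A.Nonempty)
    (hAA : ((A + A).card : ℝ) ≤ K * A.card)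
    (hDA : ∀ d ∈ D, ((A + A.image fun x => d • x).card : ℝ) ≤ K * A.card) :
    (∃ (U : AddSubgroup Γ) (T : Finset Γ), Finite U ∧ (T.card : ℝ) ≤ K ^ (3 * h + 1) ∧
      ∀ a ∈ A, ∃ t ∈ T, a - t ∈ U) ∧
    (∃ (U : AddSubgroup Γ) (T : Finset Γ), Finite U ∧
      (Nat.card U : ℝ) ≤ (K ^ (3 * h + 1)) ^ 5404 * A.card ∧
      (T.card : ℝ) ≤ (K ^ (3 * h + 1)) ^ 5406 ∧ ∀ a ∈ A, ∃ t ∈ T, a - t ∈ U) ∧
    (∃ (B : Set (Fin 1 → ℝ)) (ψ : (Fin 1 → ℤ) →+ Γ) (U : AddSubgroup Γ) (T : Finset Γ),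
      Convex ℝ B ∧ IsCompact B ∧ (interior B).Nonempty ∧ (∀ x ∈ B, -x ∈ B) ∧
      Finite U ∧
      {x : Fin 1 → ℤ | (fun i => (x i : ℝ)) ∈ B}.ncard * Nat.card U ≤ A.card ∧
      (T.card : ℝ) ≤ 8 * (K ^ (3 * h + 1)) ^ 10812 ∧
      ∀ a ∈ A, ∃ t ∈ T, ∃ x : Fin 1 → ℤ, (fun i => (x i : ℝ)) ∈ B ∧
        ∃ u ∈ U, a = t + ψ x + u) := by
  have h1 : ∀ n : ℕ, ((A + A.image fun x => n • x).card : ℝ) ≤ K ^ (3 * h + 1) * A.card := by
    intro n
    have h2 := card_of_width (R := ℤ) le_rfl (width_of_sb H) hA hAA hDA (n : ℤ)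
    have e1 : h * (2 ^ (1 + 1) - 1) + 1 = 3 * h + 1 := by ring
    rw [e1] at h2
    simpa only [natCast_zsmul] using h2
  have hd : d = (fun a b => Classical.propDecidable (a = b)) := Subsingleton.elim _ _
  subst hd
  obtain ⟨h2, h3⟩ := Pool.Agent.TH414.UD.q1A A hA (K ^ (3 * h + 1)) h1
  refine ⟨?_, h2, h3⟩
  obtain ⟨U, hfin, hc⟩ := Pool.Agent.TH414.Dil.start A hA (K ^ (3 * h + 1)) h1
  obtain ⟨X, hX, hcov⟩ := Pool.Agent.TH414.Dil.reps U A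
  exact ⟨U, X, hfin, by rw [hX]; exact hc, hcov⟩

end Pool.Agent.U234.FD
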