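import Pool.Agent.U234.FD.SB
import Pool.Agent.W276.Link

/-! Every integer is a sum of at most nine large primes with signs. -/

set_option autoImplicit false

namespace Pool.Agent.U234.FD

theorem primes_even (p₀ : ℕ) (j : ℤ) : ∃ L : List ℤ, L.length ≤ 8 ∧ L.sum = 2 * j ∧
    ∀ x ∈ L, x ∈ {x : ℤ | ∃ p : ℕ, p.Prime ∧ p₀ ≤ p ∧ x = p} ∨
      -x ∈ {x : ℤ | ∃ p : ℕ, p.Prime ∧ p₀ ≤ p ∧ x = p} := by
  obtain ⟨e0, h0⟩ := Pool.Agent.W276.Gold.even_case Pool.Agent.W276.Link.many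
  set E := e0 + 40000 * (p₀ + 1) + j.natAbs with hE
  obtain ⟨F, hF⟩ : ∃ F : ℕ, (F : ℤ) = E + j := ⟨((E : ℤ) + j).toNat, by
    rw [Int.toNat_of_nonneg]
    omega⟩
  obtain ⟨p1, p2, p3, p4, a1, a2, a3, a4, b1, b2, b3, b4, h⟩ := h0 F (by omega)
  obtain ⟨q1, q2, q3, q4, c1, c2, c3, c4, d1, d2, d3, d4, h'⟩ := h0 E (by omega)
  refine ⟨[p1, p2, p3, p4, -q1, -q2, -q3, -q4], by simp, ?_, ?_⟩
  · simp only [List.sum_cons, List.sum_nil]
    have e1 : (p1 : ℤ) + p2 + (p3 + p4) = 2 * F := by exact_mod_cast h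
    have e2 : (q1 : ℤ) + q2 + (q3 + q4) = 2 * E := by exact_mod_cast h'
    rw [hF] at e1
    linarith
  · intro x hx
    simp only [List.mem_cons, List.not_mem_nil, or_false] at hx
    have hFp : p₀ ≤ (4 * F / 3) / 40000 := by omega
    have hEp : p₀ ≤ (4 * E / 3) / 40000 := by omega
    rcases hx with rfl | rfl | rfl | rfl | rfl | rfl | rfl | rfl
    · exact Or.inl ⟨p1, a1, hFp.trans b1, rfl⟩
    · exact Or.inl ⟨p2, a2, hFp.trans b2, rfl⟩
    · exact Or.inl ⟨p3, a3, hFp.trans b3, rfl⟩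
    · exact Or.inl ⟨p4, a4, hFp.trans b4, rfl⟩
    · exact Or.inr ⟨q1, c1, hEp.trans d1, neg_neg _⟩
    · exact Or.inr ⟨q2, c2, hEp.trans d2, neg_neg _⟩
    · exact Or.inr ⟨q3, c3, hEp.trans d3, neg_neg _⟩
    · exact Or.inr ⟨q4, c4, hEp.trans d4, neg_neg _⟩

/-- The primes. -/
theorem primes_sb (p₀ : ℕ) : SB {x : ℤ | ∃ p : ℕ, p.Prime ∧ p₀ ≤ p ∧ x = p} 9 := by
  intro n
  rcases Int.even_or_odd' n with ⟨j, hj | hj⟩
  · obtain ⟨L, h1, h2, h3⟩ := primes_even p₀ j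
    refine ⟨L, by omega, by rw [h2, hj], fun x hx => ?_⟩
    rcases h3 x hx with h | h
    · exact Or.inl h
    · exact Or.inr (Or.inl h)
  · obtain ⟨q, hq, hqp⟩ := Nat.exists_infinite_primes (p₀ + 3)
    have hodd : Odd q := hqp.odd_of_ne_two (by omega)
    obtain ⟨i, hi⟩ := hodd
    obtain ⟨L, h1, h2, h3⟩ := primes_even p₀ (j - i)
    refine ⟨(q : ℤ) :: L, by simp only [List.length_cons]; omega, ?_, fun x hx => ?_⟩
    · rw [List.sum_cons, h2, hj, hi]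
      push_cast
      ring
    · rcases List.mem_cons.1 hx with rfl | hx
      · exact Or.inl ⟨q, hqp, by omega, rfl⟩
      · rcases h3 x hx with h | h
        · exact Or.inl h
        · exact Or.inr (Or.inl h)

end Pool.Agent.U234.FD
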