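import Pool.Agent.U234.FD.Cover
import Pool.Agent.R111.PM.Fin

/-! Sets with small sums with their multiples by the elements of a set that generates the ring
boundedly. -/

set_option autoImplicit false

namespace Pool.Agent.U234.FD

open Finset
open scoped Pointwise

section

variable {R M : Type*} [Ring R] [AddCommGroup M] [Module R M] [DecidableEq M]

theorem one_le_K {A : Finset M} (hA : A.Nonempty) {K : ℝ}
    (hK : ((A + A).card : ℝ) ≤ K * A.card) : 1 ≤ K := by
  have hc : (0 : ℝ) < A.card := by exact_mod_cast hA.card_pos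
  have h1 : (A.card : ℝ) ≤ (A + A).card := by exact_mod_cast card_le_card_add_right hA
  by_contra hcon
  push Not at hcon
  nlinarith

/-- The multiple `r A` is covered by `K ^ s` translates of `m (A - A)`. -/
def Good (K : ℝ) (A : Finset M) (s m : ℕ) (r : R) : Prop :=
  CovBy K A s m (A.image fun x => r • x)

variable {K : ℝ} {A : Finset M}

theorem good_zero (hA : A.Nonempty) : Good K A 0 0 (0 : R) := by
  refine CovBy.subset covBy_zero ?_
  intro x hx
  obtain ⟨a, _, rfl⟩ := mem_image.1 hx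
  rw [zero_smul]
  exact mem_zero.2 rfl

theorem good_of_card (hA : A.Nonempty) {r : R}
    (h : ((A + A.image fun x => r • x).card : ℝ) ≤ K * A.card) : Good K A 1 1 r :=
  covBy_of_card hA h

theorem Good.add (hK : 1 ≤ K) {r r' : R} {s m s' m' : ℕ} (h : Good K A s m r)
    (h' : Good K A s' m' r') : Good K A (s + s') (m + m') (r + r') := by
  refine (CovBy.add hK h h').subset ?_
  intro x hx
  obtain ⟨a, ha, rfl⟩ := mem_image.1 hx
  rw [add_smul]
  exact add_mem_add (mem_image_of_mem _ ha) (mem_image_of_mem _ ha)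

theorem Good.neg {r : R} {s m : ℕ} (h : Good K A s m r) : Good K A s m (-r) := by
  refine (CovBy.neg h).subset ?_
  intro x hx
  obtain ⟨a, ha, rfl⟩ := mem_image.1 hx
  rw [neg_smul]
  exact neg_mem_neg (mem_image_of_mem _ ha)

theorem Good.mul (hK : 1 ≤ K) {d r : R} {s m : ℕ} (h : Good K A s m r) (hd : Good K A 1 1 d) :
    Good K A (s + 2 * m) (2 * m) (d * r) := by
  have h1 := CovBy.image hK h (DistribSMul.toAddMonoidHom M d) hd
  refine CovBy.subset (by simpa using h1) ?_
  intro x hx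
  obtain ⟨a, ha, rfl⟩ := mem_image.1 hx
  rw [mul_smul]
  exact mem_image.2 ⟨r • a, mem_image_of_mem _ ha, rfl⟩

theorem Good.mono (hK : 1 ≤ K) (hA : A.Nonempty) {r : R} {s m s' m' : ℕ} (h : Good K A s m r)
    (hs : s ≤ s') (hm : m ≤ m') : Good K A s' m' r :=
  CovBy.mono hK hA h hs hm

theorem good_prod (hK : 1 ≤ K) (hA : A.Nonempty) {D : Set R}
    (hD : ∀ d ∈ D, Good K A 1 1 d) (n : ℕ) :
    ∀ l : List R, l.length = n + 1 → (∀ d ∈ l, d ∈ D) → Good K A (2 ^ (n + 1) - 1) (2 ^ n) l.prod := by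
  induction n with
  | zero =>
    intro l hl hlD
    obtain ⟨d, rfl⟩ := List.length_eq_one_iff.1 hl
    simpa using hD d (hlD d (by simp))
  | succ n ih =>
    intro l hl hlD
    cases l with
    | nil => simp at hl
    | cons d l =>
      rw [List.prod_cons]
      have h1 := ih l (by simpa using hl) fun x hx => hlD x (List.mem_cons_of_mem _ hx)
      have h2 := h1.mul hK (hD d (hlD d (by simp)))
      have e1 : 2 ^ (n + 1) = 2 * 2 ^ n := by ring
      have e2 : 2 ^ (n + 1 + 1) = 2 * 2 ^ (n + 1) := by ring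
      have e3 : 1 ≤ 2 ^ n := Nat.one_le_two_pow
      refine h2.mono hK hA ?_ ?_
      · omega
      · omega

theorem good_sum (hK : 1 ≤ K) (hA : A.Nonempty) {s m : ℕ} (L : List R)
    (hL : ∀ x ∈ L, Good K A s m x) : Good K A (L.length * s) (L.length * m) L.sum := by
  induction L with
  | nil => simpa using good_zero hA
  | cons x L ih =>
    rw [List.sum_cons, List.length_cons]
    have h1 := (hL x (by simp)).add hK (ih fun y hy => hL y (List.mem_cons_of_mem _ hy))
    exact h1.mono hK hA (le_of_eq (by ring)) (le_of_eq (by ring))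

/-- Every element of `R` is a sum of at most `h` terms, each of which is plus or minus a product of
at most `w` elements of `D`. -/
def Width (D : Set R) (h w : ℕ) : Prop :=
  ∀ r : R, ∃ L : List R, L.length ≤ h ∧ L.sum = r ∧
    ∀ x ∈ L, ∃ l : List R, l.length ≤ w ∧ (∀ d ∈ l, d ∈ D) ∧ (x = l.prod ∨ x = -l.prod)

theorem card_of_width {D : Set R} {h w : ℕ} (hw : 1 ≤ w) (hD : Width D h w) (hA : A.Nonempty)
    (hAA : ((A + A).card : ℝ) ≤ K * A.card)
    (hDA : ∀ d ∈ D, ((A + A.image fun x => d • x).card : ℝ) ≤ K * A.card) (r : R) :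
    ((A + A.image fun x => r • x).card : ℝ) ≤ K ^ (h * (2 ^ (w + 1) - 1) + 1) * A.card := by
  have hK := one_le_K hA hAA
  have hDg : ∀ d ∈ D, Good K A 1 1 d := fun d hd => good_of_card hA (hDA d hd)
  obtain ⟨L, hLh, rfl, hL⟩ := hD r
  have e1 : 2 ^ w = 2 * 2 ^ (w - 1) := by
    rw [← pow_succ', Nat.sub_add_cancel hw]
  have e2 : 2 ^ (w + 1) = 2 * 2 ^ w := by ring
  have e3 : 1 ≤ 2 ^ (w - 1) := Nat.one_le_two_pow
  have h1 : ∀ x ∈ L, Good K A (2 ^ w - 1) (2 ^ (w - 1)) x := by
    intro x hx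
    obtain ⟨l, hlw, hlD, hxl⟩ := hL x hx
    have h2 : Good K A (2 ^ w - 1) (2 ^ (w - 1)) l.prod := by
      rcases Nat.eq_zero_or_pos l.length with h0 | h0
      · rw [List.length_eq_zero_iff.1 h0, List.prod_nil]
        have h3 : Good K A 1 1 (1 : R) := by
          refine good_of_card hA ?_
          simpa using hAA
        exact h3.mono hK hA (by omega) (by omega)
      · obtain ⟨n, hn⟩ : ∃ n, l.length = n + 1 := ⟨l.length - 1, by omega⟩
        have h3 := good_prod hK hA hDg n l hn hlD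
        have h4 : 2 ^ (n + 1) ≤ 2 ^ w := Nat.pow_le_pow_right (by norm_num) (by omega)
        have h5 : 2 ^ n ≤ 2 ^ (w - 1) := Nat.pow_le_pow_right (by norm_num) (by omega)
        exact h3.mono hK hA (by omega) h5
    rcases hxl with rfl | rfl
    · exact h2
    · exact h2.neg
  have h2 := (good_sum hK hA L h1).mono hK hA (Nat.mul_le_mul_right _ hLh)
    (Nat.mul_le_mul_right _ hLh)
  have h3 := CovBy.card_le hK hA hAA h2
  refine h3.trans (le_of_eq ?_)
  congr 2
  have e4 : h * (2 ^ w - 1) + 2 * (h * 2 ^ (w - 1)) = h * (2 ^ (w + 1) - 1) := by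
    have : 2 ^ (w + 1) - 1 = (2 ^ w - 1) + 2 * 2 ^ (w - 1) := by omega
    rw [this]
    ring
  rw [e4]

end

/-- **Rings.** -/
theorem ring_main (R : Type*) [Ring R] (D : Set R) (h w : ℕ) (hw : 1 ≤ w) (hD : Width D h w)
    (M : Type*) [AddCommGroup M] [Module R M] [DecidableEq M] (K : ℝ) (A : Finset M)
    (hA : A.Nonempty) (hAA : ((A + A).card : ℝ) ≤ K * A.card)
    (hDA : ∀ d ∈ D, ((A + A.image fun x => d • x).card : ℝ) ≤ K * A.card) :
    ∃ (N : Submodule R M) (T : Finset M), Finite N ∧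
      (Nat.card N : ℝ) ≤ 64 * (K ^ (h * (2 ^ (w + 1) - 1) + 1)) ^ 59466 * A.card ∧
      (T.card : ℝ) ≤ 64 * (K ^ (h * (2 ^ (w + 1) - 1) + 1)) ^ 59468 ∧
      ∀ a ∈ A, ∃ t ∈ T, a - t ∈ N :=
  Pool.Agent.R111.PM.modules R _ A hA fun r => card_of_width hw hD hA hAA hDA r

end Pool.Agent.U234.FD
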